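import Pool.Agent.Helper89.Vol4.Goals

/-!
# Project V47 (MP_cd13d2_co), packet V47-PLN (helper96): the planar pentagon inequality
-/

set_option autoImplicit false

namespace Pool.Agent.Helper96.Vol4.PkPLN

open Set Pool.Agent.Helper86.Poly
open Pool.Agent.Helper89.Vol (br f G_PATH G_NUM)

theorem dist_le {x0 x1 x2 y0 y1 y2 : ℝ}
    (h : (x0 - y0) ^ 2 + (x1 - y1) ^ 2 + (x2 - y2) ^ 2 ≤ 1) :
    dist (!₂[x0, x1, x2] : E 3) !₂[y0, y1, y2] ≤ 1 := by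
  rw [EuclideanSpace.dist_eq]
  refine Real.sqrt_le_one.mpr ?_
  simpa [Fin.sum_univ_three, Real.dist_eq, sq_abs] using h

theorem br_eq (p0 p1 q0 q1 : ℝ) :
    br (!₂[0, 0, 0] : E 3) !₂[0, 0, 1] !₂[p0, p1, 1 / 2] !₂[q0, q1, 1 / 2] =
      p0 * q1 - p1 * q0 := by
  unfold br
  rw [Matrix.det_fin_three]
  simp

theorem thm (h : G_PATH) (hn : G_NUM) : Pool.Agent.Helper89.Vol4.G_PLN := by
  intro a0 a1 b0 b1 c0 c1 d0 d1 ha hb hc hd hab hac had hbc hbd hcd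
  obtain ⟨-, -, hn3⟩ := hn
  have hp := h 1.172454 (fun N hN => (hn3 N hN).le)
    ![!₂[0, 0, 0], !₂[0, 0, 1], !₂[a0, a1, 1 / 2], !₂[b0, b1, 1 / 2], !₂[c0, c1, 1 / 2],
      !₂[d0, d1, 1 / 2]] ?_
  · have e0 : ∀ p0 p1 q0 q1 : ℝ,
      br (!₂[0, 0, 0] : E 3) !₂[0, 0, 1] !₂[p0, p1, 1 / 2] !₂[q0, q1, 1 / 2] =
        p0 * q1 - p1 * q0 := br_eq
    have e1 := e0 a0 a1 b0 b1
    have e2 := e0 b0 b1 c0 c1
    have e3 := e0 c0 c1 d0 d1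
    change |br (!₂[0, 0, 0] : E 3) !₂[0, 0, 1] !₂[a0, a1, 1 / 2] !₂[b0, b1, 1 / 2] +
      br (!₂[0, 0, 0] : E 3) !₂[0, 0, 1] !₂[b0, b1, 1 / 2] !₂[c0, c1, 1 / 2] +
      br (!₂[0, 0, 0] : E 3) !₂[0, 0, 1] !₂[c0, c1, 1 / 2] !₂[d0, d1, 1 / 2]| ≤ _ at hp
    rw [e1, e2, e3] at hp
    exact hp
  · intro i j
    fin_cases i <;> fin_cases j <;> refine dist_le ?_ <;> linarith

end Pool.Agent.Helper96.Vol4.PkPLN
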